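import Pool.Agent.Lib.H63T.Glue
import Pool.Agent.Lib.H98TF.N

/-!
# H63T, file Fex: the truncated functor theorem, final form
-/

set_option autoImplicit false

namespace H63T

open Finset H98P H98Z H63F H30F H98M H56V

variable {V : Type*} [Fintype V] [DecidableEq V]

/-- THE TRUNCATED FUNCTOR THEOREM. `X` a decreasing family of families of vertex sets on which the plane set `G` is
disconnected. Then some plane `G` with at least `2n - 3` edges contains a nonempty `S` for which the order complex of
`X S` is not acyclic. -/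
theorem functor_2n3 {cross : Sym2 V → Sym2 V → Prop} (hsymm : ∀ e f, cross e f → cross f e)
    (hHD : ∀ W, HD cross W) (hV : ∃ x y : V, x ≠ y)
    (X : Finset (Sym2 V) → Finset V → Prop)
    (hXm : ∀ G G', G ⊆ G' → G' ⊆ LW univ → Plane cross G' → G.Nonempty → ∀ W, X G' W → X G W)
    (hXd : ∀ G W, G ⊆ LW univ → Plane cross G → G.Nonempty → X G W → Disc W G) :
    ∃ S G : Finset (Sym2 V), S.Nonempty ∧ S ⊆ G ∧ G ⊆ LW univ ∧ Plane cross G ∧
      2 * Fintype.card V ≤ G.card + 3 ∧ ¬ AC (Ch (X S)) :=
  functor_exact hsymm hHD hV (hD_of_ack fun _ _ hG hk => H98TF.ackN hG hk) X hXm hXd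

end H63T
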