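import Pool.Agent.Lib.H98M.M0

/-!
# H63T, file Trim: few edges suffice for 2-connectedness

`trim`: let `G` be 2-connected on at least two vertices and let `F` be a subset of `G` in which all degrees are at most
two. Then some 2-connected `H` with `F ⊆ H ⊆ G` has at most `2n - 3` edges. `trim_exact`: exactly `2n - 3` edges, if
`G` has at least `2n - 3`. Proof: shortest ears.
-/

set_option autoImplicit false

open Finset H98M

namespace H63T

set_option linter.unusedSectionVars false

variable {V : Type*} [Fintype V] [DecidableEq V]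

theorem disc_card {W : Finset V} {F : Finset (Sym2 V)} (h : Disc W F) : 2 ≤ W.card := by
  obtain ⟨C, D, hC, hD, hCD, rfl, -⟩ := h
  rw [card_union_of_disjoint hCD]
  have := hC.card_pos
  have := hD.card_pos
  omega

theorem disc_mono {W : Finset V} {F F' : Finset (Sym2 V)} (hF : F ⊆ F') (h : Disc W F') : Disc W F := by
  obtain ⟨C, D, hC, hD, hCD, hW, h⟩ := h
  exact ⟨C, D, hC, hD, hCD, hW, fun x hx y hy h1 => h x hx y hy (hF h1)⟩

/-- A closed set of a connected set is everything or empty. -/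
theorem closed_iff {W : Finset V} {F : Finset (Sym2 V)} (h : ¬ Disc W F) {D : Finset V}
    (hD : ∀ a ∈ W, a ∈ D → ∀ b ∈ W, s(a, b) ∈ F → b ∈ D) {x y : V} (hx : x ∈ W) (hy : y ∈ W) :
    x ∈ D → y ∈ D := by
  intro hxD
  by_contra hyD
  refine h ⟨W.filter (· ∈ D), W.filter (· ∉ D), ⟨x, mem_filter.2 ⟨hx, hxD⟩⟩, ⟨y, mem_filter.2 ⟨hy, hyD⟩⟩,
    disjoint_filter_filter_not _ _ _, filter_union_filter_not_eq _ _, fun a ha b hb hab => ?_⟩
  rw [mem_filter] at ha hb
  exact hb.2 (hD a ha.1 ha.2 b hb.1 hab)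

/-- Connectedness passes from `B` to `W` if every point of `W` is linked to a point of `B`. -/
theorem step {W B : Finset V} {F : Finset (Sym2 V)} (hB : B ⊆ W) (hd : ¬ Disc B F)
    (hl : ∀ D : Finset V, (∀ a ∈ W, a ∈ D → ∀ b ∈ W, s(a, b) ∈ F → b ∈ D) →
      ∀ x ∈ W, ∃ y ∈ B, (x ∈ D ↔ y ∈ D)) : ¬ Disc W F := by
  rintro ⟨C, D, ⟨c, hC⟩, ⟨d, hD⟩, hCD, hW, h⟩
  have hcl : ∀ a ∈ W, a ∈ C → ∀ b ∈ W, s(a, b) ∈ F → b ∈ C := by
    intro a ha haC b hb hab
    rw [← hW, mem_union] at hb
    exact hb.elim id fun hb => absurd hab (h a haC b hb)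
  obtain ⟨y, hy, h1⟩ := hl C hcl c (hW ▸ mem_union_left _ hC)
  obtain ⟨z, hz, h2⟩ := hl C hcl d (hW ▸ mem_union_right _ hD)
  have h3 : z ∈ C := closed_iff hd (fun a ha haC b hb hab => hcl a (hB ha) haC b (hB hb) hab) hy hz (h1.1 hC)
  exact disjoint_left.1 hCD (h2.2 h3) hD

/-- An ear of `U` in `G`: `p 0, p (k + 1)` are different vertices of `U`, `p 1, .., p k` are outside `U`. -/
structure Ear (G : Finset (Sym2 V)) (U : Finset V) (k : ℕ) (p : ℕ → V) : Prop where
  pos : 1 ≤ k
  left : p 0 ∈ U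
  right : p (k + 1) ∈ U
  ne : p 0 ≠ p (k + 1)
  out : ∀ i, 1 ≤ i → i ≤ k → p i ∉ U
  adj : ∀ i, i ≤ k → s(p i, p (i + 1)) ∈ G

/-- The edges of an ear. -/
def ee (k : ℕ) (p : ℕ → V) : Finset (Sym2 V) := (range (k + 1)).image fun i => s(p i, p (i + 1))

/-- The inner vertices of an ear. -/
def ev (k : ℕ) (p : ℕ → V) : Finset V := (Icc 1 k).image p

theorem ee_card (k : ℕ) (p : ℕ → V) : (ee k p).card ≤ k + 1 :=
  card_image_le.trans (card_range _).le

theorem mem_ev {k : ℕ} {p : ℕ → V} {x : V} : x ∈ ev k p ↔ ∃ i, 1 ≤ i ∧ i ≤ k ∧ p i = x := by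
  simp [ev, and_assoc]

theorem mem_ee {k : ℕ} {p : ℕ → V} {i : ℕ} (h : i ≤ k) : s(p i, p (i + 1)) ∈ ee k p :=
  mem_image_of_mem _ (mem_range.2 (by omega))

/-- Along a piece of the ear inside `W` a closed set contains all or nothing. -/
theorem along {W D : Finset V} {F : Finset (Sym2 V)} {p : ℕ → V}
    (hD : ∀ a ∈ W, a ∈ D → ∀ b ∈ W, s(a, b) ∈ F → b ∈ D) {i j : ℕ} (hij : i ≤ j)
    (hW : ∀ t, i ≤ t → t ≤ j → p t ∈ W) (hF : ∀ t, i ≤ t → t < j → s(p t, p (t + 1)) ∈ F) :
    p i ∈ D ↔ p j ∈ D := by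
  induction j, hij using Nat.le_induction with
  | base => rfl
  | succ j hij ih =>
    rw [ih (fun t h1 h2 => hW t h1 (by omega)) (fun t h1 h2 => hF t h1 (by omega))]
    have h1 := hW j hij (by omega)
    have h2 := hW (j + 1) (by omega) le_rfl
    have h3 := hF j hij (by omega)
    exact ⟨fun h => hD _ h1 h _ h2 h3, fun h => hD _ h2 h _ h1 (by rwa [Sym2.eq_swap])⟩

/-- Adding an ear keeps connectedness, also after the deletion of a vertex. -/
theorem ear_conn {G H H' : Finset (Sym2 V)} {U : Finset V} {k : ℕ} {p : ℕ → V} (he : Ear G U k p)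
    (hinj : ∀ i j, 1 ≤ i → i ≤ k → 1 ≤ j → j ≤ k → p i = p j → i = j)
    (hH : H ⊆ H') (hp : ee k p ⊆ H') (hc : ¬ Disc U H) (h2 : ∀ z, ¬ Disc (U.erase z) H) :
    ¬ Disc (U ∪ ev k p) H' ∧ ∀ z, ¬ Disc ((U ∪ ev k p).erase z) H' := by
  have hadj : ∀ i, i ≤ k → s(p i, p (i + 1)) ∈ H' := fun i hi => hp (mem_ee hi)
  have hmem : ∀ t, t ≤ k + 1 → p t ∈ U ∪ ev k p := by
    intro t ht
    rcases Nat.eq_zero_or_pos t with rfl | h0
    · exact mem_union_left _ he.left
    · rcases Nat.lt_or_ge k t with h1 | h1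
      · obtain rfl : t = k + 1 := by omega
        exact mem_union_left _ he.right
      · exact mem_union_right _ (mem_ev.2 ⟨t, h0, h1, rfl⟩)
  have hcU : ¬ Disc (U ∪ ev k p) H' := by
    refine step (B := U) subset_union_left (fun h => hc (disc_mono hH h)) fun D hD x hx => ?_
    rcases mem_union.1 hx with hx | hx
    · exact ⟨x, hx, Iff.rfl⟩
    · obtain ⟨i, h1, h2, rfl⟩ := mem_ev.1 hx
      exact ⟨p 0, he.left, (along hD (Nat.zero_le i) (fun t _ h3 => hmem t (by omega))
        fun t _ h3 => hadj t (by omega)).symm⟩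
  refine ⟨hcU, fun z => ?_⟩
  by_cases hz : z ∈ U ∪ ev k p
  swap
  · rwa [erase_eq_of_notMem hz]
  by_cases hzU : z ∈ U
  · refine step (B := U.erase z) (erase_subset_erase _ subset_union_left)
      (fun h => h2 z (disc_mono hH h)) fun D hD x hx => ?_
    obtain ⟨hxz, hx⟩ := mem_erase.1 hx
    rcases mem_union.1 hx with hx | hx
    · exact ⟨x, mem_erase.2 ⟨hxz, hx⟩, Iff.rfl⟩
    · obtain ⟨i, h1, h2, rfl⟩ := mem_ev.1 hx
      have hin : ∀ t, 1 ≤ t → t ≤ k → p t ≠ z := fun t h3 h4 h5 => he.out t h3 h4 (h5 ▸ hzU)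
      by_cases h0 : p 0 = z
      · have h5 : p (k + 1) ≠ z := fun h6 => he.ne (h0.trans h6.symm)
        refine ⟨p (k + 1), mem_erase.2 ⟨h5, he.right⟩, along hD (by omega : i ≤ k + 1) (fun t h3 h4 => ?_)
          fun t h3 h4 => hadj t (by omega)⟩
        refine mem_erase.2 ⟨?_, hmem t h4⟩
        rcases Nat.lt_or_ge k t with h7 | h7
        · obtain rfl : t = k + 1 := by omega
          exact h5
        · exact hin t (by omega) h7
      · refine ⟨p 0, mem_erase.2 ⟨h0, he.left⟩, (along hD (Nat.zero_le i) (fun t _ h4 => ?_)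
          fun t _ h4 => hadj t (by omega)).symm⟩
        refine mem_erase.2 ⟨?_, hmem t (by omega)⟩
        rcases Nat.eq_zero_or_pos t with rfl | h7
        · exact h0
        · exact hin t h7 (by omega)
  · obtain ⟨m, hm1, hm2, rfl⟩ := mem_ev.1 ((mem_union.1 hz).resolve_left hzU)
    have hUm : ∀ x ∈ U, x ≠ p m := fun x hx h => hzU (h ▸ hx)
    refine step (B := U) (fun x hx => mem_erase.2 ⟨hUm x hx, mem_union_left _ hx⟩)
      (fun h => hc (disc_mono hH h)) fun D hD x hx => ?_
    obtain ⟨hxz, hx⟩ := mem_erase.1 hx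
    rcases mem_union.1 hx with hx | hx
    · exact ⟨x, hx, Iff.rfl⟩
    · obtain ⟨i, h1, h2, rfl⟩ := mem_ev.1 hx
      have him : i ≠ m := fun h => hxz (h ▸ rfl)
      rcases Nat.lt_or_ge i m with h3 | h3
      · refine ⟨p 0, he.left, (along hD (Nat.zero_le i) (fun t _ h4 => ?_)
          fun t _ h4 => hadj t (by omega)).symm⟩
        refine mem_erase.2 ⟨?_, hmem t (by omega)⟩
        rcases Nat.eq_zero_or_pos t with rfl | h7
        · exact hUm _ he.left
        · exact fun h8 => by
            have := hinj t m h7 (by omega) hm1 hm2 h8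
            omega
      · refine ⟨p (k + 1), he.right, along hD (by omega : i ≤ k + 1) (fun t h4 h5 => ?_)
          fun t h4 h5 => hadj t (by omega)⟩
        refine mem_erase.2 ⟨?_, hmem t h5⟩
        rcases Nat.lt_or_ge k t with h7 | h7
        · obtain rfl : t = k + 1 := by omega
          exact hUm _ he.right
        · exact fun h8 => by
            have := hinj t m (by omega) h7 hm1 hm2 h8
            omega

/-- A chain of a transitive closure as a path. -/
theorem path_of_rtg {R : V → V → Prop} {x y : V} (h : Relation.ReflTransGen R x y) :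
    ∃ (m : ℕ) (q : ℕ → V), q 0 = x ∧ q m = y ∧ ∀ i, i < m → R (q i) (q (i + 1)) := by
  induction h with
  | refl => exact ⟨0, fun _ => x, rfl, rfl, fun i hi => absurd hi (by omega)⟩
  | @tail y z _ hR ih =>
    obtain ⟨m, q, h0, hm, h⟩ := ih
    refine ⟨m + 1, fun i => if i ≤ m then q i else z, by simp [h0], by simp, fun i hi => ?_⟩
    rcases Nat.lt_or_ge i m with h1 | h1
    · simp only [if_pos (show i ≤ m by omega), if_pos (show i + 1 ≤ m by omega)]
      exact h i h1
    · obtain rfl : i = m := by omega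
      simp only [le_refl, if_true, if_neg (show ¬ i + 1 ≤ i by omega)]
      rwa [hm]

/-- Existence of an ear. -/
theorem exists_ear {G : Finset (Sym2 V)} (h2 : ∀ z, ¬ Disc (univ.erase z) G) {U : Finset V}
    (hU : 2 ≤ U.card) (hU' : U ≠ univ) : ∃ k p, Ear G U k p := by
  classical
  obtain ⟨x, hx⟩ : ∃ x, x ∉ U := by
    by_contra h
    push Not at h
    exact hU' (eq_univ_iff_forall.2 h)
  set R : V → V → Prop := fun a b => s(a, b) ∈ G ∧ a ∉ U ∧ b ∉ U with hR
  have hsym : ∀ a b, R a b → R b a := fun a b h => ⟨by rw [Sym2.eq_swap]; exact h.1, h.2.2, h.2.1⟩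
  set S : Finset V := univ.filter fun y => Relation.ReflTransGen R x y with hS
  have hSU : ∀ y ∈ S, y ∉ U := by
    intro y hy
    rw [hS, mem_filter] at hy
    rcases Relation.ReflTransGen.cases_tail hy.2 with h | ⟨c, -, h⟩
    · rwa [h]
    · exact h.2.2
  have hcl : ∀ a ∈ S, ∀ b, b ∉ U → s(a, b) ∈ G → b ∈ S := by
    intro a ha b hb hab
    have h1 := hSU a ha
    rw [hS, mem_filter] at ha ⊢
    exact ⟨mem_univ _, ha.2.tail ⟨hab, h1, hb⟩⟩
  -- for every z in U some vertex of U - z is adjacent to S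
  have key : ∀ z ∈ U, ∃ u ∈ U, u ≠ z ∧ ∃ y ∈ S, s(y, u) ∈ G := by
    intro z hz
    by_contra hcon
    push Not at hcon
    obtain ⟨w, hw, hwz⟩ : ∃ w ∈ U, w ≠ z := by
      by_contra h
      push Not at h
      have : U ⊆ {z} := fun a ha => mem_singleton.2 (h a ha)
      have := card_le_card this
      rw [card_singleton] at this
      omega
    refine h2 z ⟨S, (univ.erase z) \ S, ⟨x, ?_⟩, ⟨w, ?_⟩, disjoint_sdiff, ?_, fun a ha b hb hab => ?_⟩
    · rw [hS, mem_filter]
      exact ⟨mem_univ _, Relation.ReflTransGen.refl⟩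
    · exact mem_sdiff.2 ⟨mem_erase.2 ⟨hwz, mem_univ _⟩, fun h => hSU w h hw⟩
    · exact union_sdiff_of_subset fun a ha => mem_erase.2 ⟨fun h => hSU a ha (h ▸ hz), mem_univ _⟩
    · obtain ⟨h3, h4⟩ := mem_sdiff.1 hb
      have h5 := (mem_erase.1 h3).1
      by_cases h6 : b ∈ U
      · exact hcon b h6 h5 a ha hab
      · exact h4 (hcl a ha b h6 hab)
  obtain ⟨z, hz⟩ : U.Nonempty := card_pos.1 (by omega)
  obtain ⟨u, hu, -, y, hy, hyu⟩ := key z hz
  obtain ⟨u', hu', huu', y', hy', hyu'⟩ := key u hu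
  have hyy : Relation.ReflTransGen R y y' := by
    have h1 : Relation.ReflTransGen R y x := by
      have h0 := (mem_filter.1 (hS ▸ hy)).2
      have : Std.Symm R := ⟨fun a b h => hsym a b h⟩
      exact (Relation.ReflTransGen.stdSymm (r := R)).symm _ _ h0
    exact h1.trans (mem_filter.1 (hS ▸ hy')).2
  obtain ⟨m, q, h0, hm, h⟩ := path_of_rtg hyy
  have hqU : ∀ i, i ≤ m → q i ∉ U := by
    intro i hi
    rcases Nat.eq_zero_or_pos i with rfl | h1
    · rw [h0]
      exact hSU y hy
    · have := (h (i - 1) (by omega)).2.2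
      rwa [show i - 1 + 1 = i by omega] at this
  refine ⟨m + 1, fun i => if i = 0 then u else if i ≤ m + 1 then q (i - 1) else u', by omega, ?_, ?_, ?_, ?_, ?_⟩
  · simpa using hu
  · simpa using hu'
  · simpa using huu'.symm
  · intro i h1 h2
    simp only [if_neg (show ¬ i = 0 by omega), if_pos h2]
    exact hqU _ (by omega)
  · intro i hi
    rcases Nat.eq_zero_or_pos i with rfl | h1
    · simp only [if_true, if_neg (show ¬ 0 + 1 = 0 by omega), if_pos (show 0 + 1 ≤ m + 1 by omega)]
      rw [show 0 + 1 - 1 = 0 by omega, h0, Sym2.eq_swap]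
      exact hyu
    · simp only [if_neg (show ¬ i = 0 by omega), if_pos hi, if_neg (show ¬ i + 1 = 0 by omega)]
      rcases Nat.lt_or_ge i (m + 1) with h3 | h3
      · rw [if_pos (show i + 1 ≤ m + 1 by omega)]
        have := (h (i - 1) (by omega)).1
        rwa [show i - 1 + 1 = i + 1 - 1 by omega] at this
      · obtain rfl : i = m + 1 := by omega
        rw [if_neg (show ¬ m + 1 + 1 ≤ m + 1 by omega), show m + 1 - 1 = m by omega, hm]
        exact hyu'

/-- Shortcut: `p i` is followed directly by `p (i + 1 + c)`. -/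
theorem shortcut {G : Finset (Sym2 V)} {U : Finset V} {k : ℕ} {p : ℕ → V} (he : Ear G U k p)
    {i c : ℕ} (hi : 1 ≤ i) (hc : i + c ≤ k) (h : s(p i, p (i + 1 + c)) ∈ G) :
    Ear G U (k - c) fun t => if t ≤ i then p t else p (t + c) := by
  refine ⟨by omega, ?_, ?_, ?_, ?_, ?_⟩
  · simpa using he.left
  · simp only [if_neg (show ¬ k - c + 1 ≤ i by omega), show k - c + 1 + c = k + 1 by omega]
    exact he.right
  · simp only [Nat.zero_le, if_true, if_neg (show ¬ k - c + 1 ≤ i by omega),
      show k - c + 1 + c = k + 1 by omega]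
    exact he.ne
  · intro t h1 h2
    by_cases h3 : t ≤ i
    · simp only [if_pos h3]
      exact he.out t h1 (by omega)
    · simp only [if_neg h3]
      exact he.out _ (by omega) (by omega)
  · intro t h1
    rcases Nat.lt_trichotomy t i with h3 | rfl | h3
    · simp only [if_pos h3.le, if_pos (show t + 1 ≤ i by omega)]
      exact he.adj t (by omega)
    · simp only [le_refl, if_true, if_neg (show ¬ t + 1 ≤ t by omega)]
      exact h
    · simp only [if_neg (show ¬ t ≤ i by omega), if_neg (show ¬ t + 1 ≤ i by omega)]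
      have := he.adj (t + c) (by omega)
      rwa [show t + c + 1 = t + 1 + c by omega] at this

/-- A shortest ear of length at least two is an induced path. -/
theorem good_ear {G F : Finset (Sym2 V)} (hG : ∀ e ∈ G, ¬ e.IsDiag) (hFG : F ⊆ G)
    (hF : ∀ v, (F.filter (v ∈ ·)).card ≤ 2) (h2 : ∀ z, ¬ Disc (univ.erase z) G) {U : Finset V}
    (hU : 2 ≤ U.card) (hU' : U ≠ univ) : ∃ k p, Ear G U k p ∧
      (∀ i j, 1 ≤ i → i ≤ k → 1 ≤ j → j ≤ k → p i = p j → i = j) ∧
      ∀ x ∈ U ∪ ev k p, ∀ y ∈ ev k p, s(x, y) ∈ F → s(x, y) ∈ ee k p := by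
  classical
  have hex : ∃ k, ∃ p, Ear G U k p := exists_ear h2 hU hU'
  obtain ⟨p, he⟩ := Nat.find_spec hex
  have hmin : ∀ k' p', Ear G U k' p' → Nat.find hex ≤ k' := fun k' p' h => Nat.find_min' hex ⟨p', h⟩
  generalize Nat.find hex = k at he hmin
  have hk := he.pos
  rcases Nat.lt_or_ge k 2 with hk1 | hk2
  · -- one inner vertex
    obtain rfl : k = 1 := by omega
    have ha0 : s(p 0, p 1) ∈ G := he.adj 0 (by omega)
    have ha1 : s(p 1, p 2) ∈ G := he.adj 1 (by omega)
    set A : Finset V := U.filter fun w => s(p 1, w) ∈ F with hA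
    set B : Finset V := U.filter fun w => s(p 1, w) ∈ G with hB
    have hAB : A ⊆ B := fun w hw => by
      rw [hA, mem_filter] at hw
      rw [hB, mem_filter]
      exact ⟨hw.1, hFG hw.2⟩
    have hA2 : A.card ≤ 2 := by
      refine le_trans ?_ (hF (p 1))
      refine card_le_card_of_injOn (fun w => s(p 1, w)) (fun w hw => ?_) (fun w _ w' _ h => ?_)
      · have hw' := (mem_filter.1 (hA ▸ hw)).2
        exact mem_coe.2 (mem_filter.2 ⟨hw', Sym2.mem_mk_left _ _⟩)
      · exact (Sym2.congr_right.1 h)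
    have hB2 : 2 ≤ B.card := by
      have h3 : ({p 0, p 2} : Finset V) ⊆ B := by
        intro w hw
        rw [mem_insert, mem_singleton] at hw
        rw [hB, mem_filter]
        rcases hw with rfl | rfl
        · exact ⟨he.left, by rwa [Sym2.eq_swap]⟩
        · exact ⟨he.right, ha1⟩
      have h4 := card_le_card h3
      rwa [card_pair he.ne] at h4
    obtain ⟨A', h3, h4, h5⟩ := exists_subsuperset_card_eq hAB hA2 hB2
    obtain ⟨a, b, hab, rfl⟩ := card_eq_two.1 h5
    have haB := mem_filter.1 (hB ▸ h4 (mem_insert_self a {b}))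
    have hbB := mem_filter.1 (hB ▸ h4 (mem_insert_of_mem (mem_singleton_self b)))
    have hp1 : p 1 ∉ U := he.out 1 le_rfl le_rfl
    refine ⟨1, fun i => if i = 0 then a else if i = 1 then p 1 else b, ⟨le_rfl, ?_, ?_, ?_, ?_, ?_⟩, ?_, ?_⟩
    · simpa using haB.1
    · simpa using hbB.1
    · simpa using hab
    · intro i h6 h7
      obtain rfl : i = 1 := by omega
      simpa using hp1
    · intro i hi
      interval_cases i
      · simp only [if_true]
        rw [Sym2.eq_swap]
        simpa using haB.2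
      · simpa using hbB.2
    · intro i j h6 h7 h8 h9 _
      omega
    · intro x hx y hy hxy
      obtain ⟨j, h6, h7, rfl⟩ := mem_ev.1 hy
      obtain rfl : j = 1 := by omega
      simp only [one_ne_zero, if_false, if_true] at hxy ⊢
      rcases mem_union.1 hx with hx | hx
      · have h8 : x ∈ ({a, b} : Finset V) := h3 (by
          rw [hA, mem_filter]
          exact ⟨hx, by rwa [Sym2.eq_swap]⟩)
        rw [mem_insert, mem_singleton] at h8
        rcases h8 with rfl | rfl
        · exact mem_image.2 ⟨0, by simp, by simp⟩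
        · exact mem_image.2 ⟨1, by simp, by simp [Sym2.eq_swap]⟩
      · obtain ⟨i, h9, h10, rfl⟩ := mem_ev.1 hx
        obtain rfl : i = 1 := by omega
        exact absurd (Sym2.mk_isDiag_iff.2 (by simp)) (hG _ (hFG hxy))
  · -- at least two inner vertices
    have hne : ∀ i j, 1 ≤ i → i < j → j ≤ k → p i ≠ p j := by
      intro i j h1 h3 h4 h5
      have h6 := he.adj j h4
      rw [← h5] at h6
      have h7 := hmin _ _ (shortcut he (i := i) (c := j - i) h1 (by omega)
        (by rwa [show i + 1 + (j - i) = j + 1 by omega]))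
      omega
    have hch : ∀ i j, 1 ≤ i → i < j → j ≤ k → s(p i, p j) ∈ G → j = i + 1 := by
      intro i j h1 h3 h4 h5
      by_contra h6
      have h7 := hmin _ _ (shortcut he (i := i) (c := j - i - 1) h1 (by omega)
        (by rwa [show i + 1 + (j - i - 1) = j by omega]))
      omega
    have hL : ∀ i, 1 ≤ i → i < k → ∀ w ∈ U, s(p i, w) ∈ G → w = p 0 := by
      intro i h1 h3 w hw h5
      by_contra h6
      have h7 := hmin i (fun t => if t ≤ i then p t else w) ⟨h1, by simpa using he.left, by simpa using hw,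
        by simpa using Ne.symm h6, fun t h8 h9 => by simpa [h9] using he.out t h8 (by omega), fun t h8 => by
          rcases Nat.lt_or_ge t i with h9 | h9
          · simpa [h8, show t + 1 ≤ i by omega] using he.adj t (by omega)
          · obtain rfl : t = i := by omega
            simpa using h5⟩
      omega
    have hRt : ∀ i, 2 ≤ i → i ≤ k → ∀ w ∈ U, s(p i, w) ∈ G → w = p (k + 1) := by
      intro i h1 h3 w hw h5
      by_contra h6
      have h7 := hmin (k - (i - 1)) (fun t => if t = 0 then w else p (t + (i - 1))) ⟨by omega,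
        by simpa using hw, by
          simp only [if_neg (show ¬ k - (i - 1) + 1 = 0 by omega)]
          rw [show k - (i - 1) + 1 + (i - 1) = k + 1 by omega]
          exact he.right, by
          simp only [if_true, if_neg (show ¬ k - (i - 1) + 1 = 0 by omega)]
          rw [show k - (i - 1) + 1 + (i - 1) = k + 1 by omega]
          exact h6, fun t h8 h9 => by
          simp only [if_neg (show ¬ t = 0 by omega)]
          exact he.out _ (by omega) (by omega), fun t h8 => by
          rcases Nat.eq_zero_or_pos t with rfl | h9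
          · simp only [if_true, if_neg (show ¬ 0 + 1 = 0 by omega)]
            rw [show 0 + 1 + (i - 1) = i by omega, Sym2.eq_swap]
            exact h5
          · simp only [if_neg (show ¬ t = 0 by omega), if_neg (show ¬ t + 1 = 0 by omega)]
            have := he.adj (t + (i - 1)) (by omega)
            rwa [show t + (i - 1) + 1 = t + 1 + (i - 1) by omega] at this⟩
      omega
    refine ⟨k, p, he, fun i j h1 h3 h4 h5 h6 => ?_, fun x hx y hy hxy => ?_⟩
    · rcases Nat.lt_trichotomy i j with h7 | h7 | h7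
      · exact absurd h6 (hne i j h1 h7 h5)
      · exact h7
      · exact absurd h6.symm (hne j i h4 h7 h3)
    · obtain ⟨j, h1, h3, rfl⟩ := mem_ev.1 hy
      have hxG : s(p j, x) ∈ G := by
        rw [Sym2.eq_swap]
        exact hFG hxy
      rcases mem_union.1 hx with hx | hx
      · rcases Nat.lt_or_ge j 2 with h4 | h4
        · obtain rfl : j = 1 := by omega
          have h5 := hL 1 le_rfl (by omega) x hx hxG
          subst h5
          exact mem_ee (Nat.zero_le _)
        · have h5 := hRt j h4 h3 x hx hxG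
          rcases Nat.lt_or_ge j k with h6 | h6
          · exact absurd ((hL j h1 h6 x hx hxG).symm.trans h5) he.ne
          · obtain rfl : j = k := by omega
            rw [h5, Sym2.eq_swap]
            exact mem_ee le_rfl
      · obtain ⟨i, h4, h5, rfl⟩ := mem_ev.1 hx
        rcases Nat.lt_trichotomy i j with h7 | h7 | h7
        · have h8 := hch i j h4 h7 h3 (hFG hxy)
          subst h8
          exact mem_ee h5
        · subst h7
          exact absurd (Sym2.mk_isDiag_iff.2 rfl) (hG _ (hFG hxy))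
        · have h8 := hch j i h1 h7 h5 hxG
          subst h8
          rw [Sym2.eq_swap]
          exact mem_ee h3

/-- The state of the induction. -/
structure State (G F : Finset (Sym2 V)) (U : Finset V) (H : Finset (Sym2 V)) : Prop where
  two : 2 ≤ U.card
  sub : H ⊆ G
  inF : ∀ x ∈ U, ∀ y ∈ U, s(x, y) ∈ F → s(x, y) ∈ H
  conn : ¬ Disc U H
  conn2 : ∀ z, ¬ Disc (U.erase z) H
  few : H.card + 3 ≤ 2 * U.card

theorem grow {G F : Finset (Sym2 V)} (hG : ∀ e ∈ G, ¬ e.IsDiag) (hFG : F ⊆ G)
    (hF : ∀ v, (F.filter (v ∈ ·)).card ≤ 2) (h2 : ∀ z, ¬ Disc (univ.erase z) G) :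
    ∀ (m : ℕ) (U : Finset V) (H : Finset (Sym2 V)), Fintype.card V - U.card ≤ m → State G F U H →
      ∃ H, State G F univ H := by
  intro m
  induction m with
  | zero =>
    intro U H hm hS
    have : U = univ := eq_univ_of_card U (le_antisymm (card_le_univ U) (by omega))
    exact ⟨H, this ▸ hS⟩
  | succ m ih =>
    intro U H hm hS
    by_cases hU : U = univ
    · exact ⟨H, hU ▸ hS⟩
    obtain ⟨k, p, he, hinj, hFe⟩ := good_ear hG hFG hF h2 hS.two hU
    have hk := he.pos
    have hcard : (U ∪ ev k p).card = U.card + k := by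
      rw [card_union_of_disjoint, ev, card_image_of_injOn, Nat.card_Icc]
      · omega
      · intro i hi j hj hij
        rw [coe_Icc, Set.mem_Icc] at hi hj
        exact hinj i j hi.1 hi.2 hj.1 hj.2 hij
      · rw [disjoint_left]
        intro x hx hx'
        obtain ⟨i, h1, h3, rfl⟩ := mem_ev.1 hx'
        exact he.out i h1 h3 hx
    obtain ⟨c1, c2⟩ := ear_conn he hinj (H' := H ∪ ee k p) subset_union_left subset_union_right hS.conn hS.conn2
    refine ih (U ∪ ev k p) (H ∪ ee k p) (by omega) ⟨?_, ?_, ?_, c1, c2, ?_⟩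
    · have := hS.two
      omega
    · refine union_subset hS.sub fun e he' => ?_
      obtain ⟨i, hi, rfl⟩ := mem_image.1 he'
      exact he.adj i (by have := mem_range.1 hi; omega)
    · intro x hx y hy hxy
      rcases mem_union.1 hy with hy' | hy'
      · rcases mem_union.1 hx with hx' | hx'
        · exact mem_union_left _ (hS.inF x hx' y hy' hxy)
        · have := hFe y hy x hx' (by rwa [Sym2.eq_swap])
          rw [Sym2.eq_swap]
          exact mem_union_right _ this
      · exact mem_union_right _ (hFe x hx y hy' hxy)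
    · have h1 := hS.few
      have h3 := card_union_le H (ee k p)
      have h4 := ee_card k p
      omega

/-- TRIMMING. -/
theorem trim (G F : Finset (Sym2 V)) (hG : ∀ e ∈ G, ¬ e.IsDiag) (hFG : F ⊆ G)
    (hF : ∀ v, (F.filter (v ∈ ·)).card ≤ 2) (hc : ¬ Disc univ G) (h2 : ∀ z, ¬ Disc (univ.erase z) G)
    (hV : 2 ≤ Fintype.card V) :
    ∃ H, F ⊆ H ∧ H ⊆ G ∧ ¬ Disc univ H ∧ (∀ z, ¬ Disc (univ.erase z) H) ∧
      H.card + 3 ≤ 2 * Fintype.card V := by
  classical
  obtain ⟨a, b, hab⟩ : ∃ a b, s(a, b) ∈ G := by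
    obtain ⟨a, b, hab⟩ := Fintype.exists_pair_of_one_lt_card (by omega : 1 < Fintype.card V)
    by_contra hcon
    push Not at hcon
    exact hc ⟨{a}, univ \ {a}, singleton_nonempty a, ⟨b, by simp [Ne.symm hab]⟩, disjoint_sdiff, by simp,
      fun x _ y _ => hcon x y⟩
  have hne : a ≠ b := fun h => hG _ hab (Sym2.mk_isDiag_iff.2 h)
  have h1 : ¬ Disc {a, b} ({s(a, b)} : Finset (Sym2 V)) := by
    refine step (B := {a}) (by simp) (fun h => ?_) fun D hD x hx => ?_
    · have := disc_card h
      simp at this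
    · rw [mem_insert, mem_singleton] at hx
      rcases hx with rfl | rfl
      · exact ⟨x, by simp, Iff.rfl⟩
      · exact ⟨a, by simp, fun h => hD x (by simp) h a (by simp) (by simp [Sym2.eq_swap]),
          fun h => hD a (by simp) h x (by simp) (by simp)⟩
  have hS : State G F {a, b} {s(a, b)} := by
    refine ⟨by rw [card_pair hne], by simpa using hab, ?_, h1, ?_, ?_⟩
    · intro x hx y hy hxy
      have hxy' : x ≠ y := fun h => hG _ (hFG hxy) (Sym2.mk_isDiag_iff.2 h)
      rw [mem_insert, mem_singleton] at hx hy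
      rcases hx with rfl | rfl <;> rcases hy with rfl | rfl
      · exact absurd rfl hxy'
      · simp
      · simp [Sym2.eq_swap]
      · exact absurd rfl hxy'
    · intro z h
      by_cases hz : z ∈ ({a, b} : Finset V)
      · have h3 := disc_card h
        rw [card_erase_of_mem hz, card_pair hne] at h3
        omega
      · exact h1 (by rwa [erase_eq_of_notMem hz] at h)
    · rw [card_pair hne, card_singleton]
  obtain ⟨H, hH⟩ := grow hG hFG hF h2 _ _ _ le_rfl hS
  refine ⟨H, fun e he => ?_, hH.sub, hH.conn, hH.conn2, by simpa using hH.few⟩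
  induction e with
  | h x y => exact hH.inF x (mem_univ _) y (mem_univ _) he

/-- TRIMMING to exactly `2n - 3` edges. -/
theorem trim_exact (G F : Finset (Sym2 V)) (hG : ∀ e ∈ G, ¬ e.IsDiag) (hFG : F ⊆ G)
    (hF : ∀ v, (F.filter (v ∈ ·)).card ≤ 2) (hc : ¬ Disc univ G) (h2 : ∀ z, ¬ Disc (univ.erase z) G)
    (hV : 2 ≤ Fintype.card V) (hm : 2 * Fintype.card V ≤ G.card + 3) :
    ∃ H, F ⊆ H ∧ H ⊆ G ∧ ¬ Disc univ H ∧ (∀ z, ¬ Disc (univ.erase z) H) ∧
      H.card = 2 * Fintype.card V - 3 := by
  obtain ⟨H, h1, h3, h4, h5, h6⟩ := trim G F hG hFG hF hc h2 hV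
  obtain ⟨H', h7, h8, h9⟩ := exists_subsuperset_card_eq h3 (n := 2 * Fintype.card V - 3) (by omega) (by omega)
  exact ⟨H', h1.trans h7, h8, fun h => h4 (disc_mono h7 h), fun z h => h5 z (disc_mono h7 h), h9⟩

end H63T
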