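import Pool.Agent.Lib.H63T.Tr
import Pool.Agent.Lib.H63T.Trim

/-!
# H63T, file Glue: the hypothesis of `functor_exact` from the complex of the sets inside disconnected sets
-/

set_option autoImplicit false

set_option linter.unusedSectionVars false

namespace H63T

open Finset H98P H98Z H63F H30F H98M H56V

variable {V : Type*} [Fintype V] [DecidableEq V]

/-- A graph with at most `2n - 4` edges is not complete. -/
theorem exists_disc {G : Finset (Sym2 V)} (h : G.card + 4 ≤ 2 * Fintype.card V) : ∃ W : Finset V, Disc W G := by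
  classical
  by_contra hcon
  push Not at hcon
  have hall : ∀ a b : V, a ≠ b → s(a, b) ∈ G := by
    intro a b hab
    by_contra hn
    refine hcon {a, b} ⟨{a}, {b}, singleton_nonempty a, singleton_nonempty b, by simpa using hab, rfl, ?_⟩
    intro x hx y hy
    rw [mem_singleton] at hx hy
    rwa [hx, hy]
  obtain ⟨a, b, hab⟩ := Fintype.exists_pair_of_one_lt_card (by omega : 1 < Fintype.card V)
  have h1 : ((univ.erase a).image fun x => s(a, x)).card = Fintype.card V - 1 := by
    rw [card_image_of_injective _ (fun x y hxy => Sym2.congr_right.1 hxy), card_erase_of_mem (mem_univ _), card_univ]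
  have h2 : (((univ.erase a).erase b).image fun x => s(b, x)).card = Fintype.card V - 1 - 1 := by
    rw [card_image_of_injective _ (fun x y hxy => Sym2.congr_right.1 hxy),
      card_erase_of_mem (mem_erase.2 ⟨Ne.symm hab, mem_univ _⟩), card_erase_of_mem (mem_univ _), card_univ]
  have h3 : Disjoint ((univ.erase a).image fun x => s(a, x)) (((univ.erase a).erase b).image fun x => s(b, x)) := by
    rw [disjoint_left]
    intro e he he'
    obtain ⟨x, hx, rfl⟩ := mem_image.1 he
    obtain ⟨y, hy, hxy⟩ := mem_image.1 he'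
    rcases Sym2.eq_iff.1 hxy with ⟨h4, -⟩ | ⟨h4, h5⟩
    · exact hab h4.symm
    · exact (mem_erase.1 (mem_erase.1 hy).2).1 h5
  have h4 : ((univ.erase a).image fun x => s(a, x)) ∪ (((univ.erase a).erase b).image fun x => s(b, x)) ⊆ G := by
    refine union_subset (fun e he => ?_) (fun e he => ?_)
    · obtain ⟨x, hx, rfl⟩ := mem_image.1 he
      exact hall a x (Ne.symm (mem_erase.1 hx).1)
    · obtain ⟨x, hx, rfl⟩ := mem_image.1 he
      exact hall b x (Ne.symm (mem_erase.1 hx).1)
  have h5 := card_le_card h4
  rw [card_union_of_disjoint h3, h1, h2] at h5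
  omega

/-- The hypothesis of `functor_exact`. -/
theorem hD_of_ack (ack : ∀ (G : Finset (Sym2 V)) (k : ℕ), (∀ e ∈ G, ¬ e.IsDiag) →
      k + G.card + 4 ≤ 2 * Fintype.card V → H70H.ACk k fun M : Finset V => ∃ W, M ⊆ W ∧ Disc W G) :
    ∀ S : Finset (Sym2 V), S ⊆ LW univ → S.Nonempty → ∀ k, k + S.card + 4 ≤ 2 * Fintype.card V →
      HC (Ch fun W : Finset V => Disc W S) k := by
  intro S hS _ k hk
  have hdiag : ∀ e ∈ S, ¬ e.IsDiag := by
    intro e he
    have h1 := hS he
    unfold LW at h1
    exact (mem_filter.1 h1).2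
  obtain ⟨W0, hW0⟩ := exists_disc (G := S) (by omega)
  refine hc_disc (hc_congr (fun M => ?_) (hc_of_ack (ack S k hdiag hk)))
  constructor
  · exact fun h => Or.inr h
  · rintro (rfl | h)
    · exact ⟨W0, empty_subset _, hW0⟩
    · exact h

end H63T
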