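import Pool.Agent.Lib.H30D.C4
import Pool.Agent.Lib.H47X.K1
import Pool.Agent.Lib.H56V.P2

/-!
# H63T, file HC: transfer of truncated acyclicity (`H56V.HC`)

`HC K k`: the cycles of `K` supported on members of cardinality `k` bound. Transfer by acyclic carriers, closure,
subdivision, and the poset of the disconnected sets of a graph.
-/

set_option autoImplicit false

set_option linter.unusedSectionVars false

namespace H63T

open Finset H98P H63F H30F H98M H56V

/-- Only the part of cardinality `k + 1` matters. -/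
theorem trunc {A : Type*} [Fintype A] [DecidableEq A] {K : Finset A → Prop} {k : ℕ} {z : Finset A → ZMod 2}
    (hz : ∀ s, z s ≠ 0 → K s ∧ s.card = k) (c : Finset A → ZMod 2) (hc : ∀ s, c s ≠ 0 → K s)
    (hb : ∀ r, bd c r = z r) :
    ∃ c : Finset A → ZMod 2, (∀ s, c s ≠ 0 → K s ∧ s.card = k + 1) ∧ ∀ r, bd c r = z r := by
  refine ⟨fun r => if r.card = k + 1 then c r else 0, ?_, ?_⟩
  · intro s hs
    beta_reduce at hs
    by_cases h1 : s.card = k + 1
    · rw [if_pos h1] at hs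
      exact ⟨hc s hs, h1⟩
    · rw [if_neg h1] at hs
      exact absurd rfl hs
  · intro r
    rw [bd_card, hb r]
    by_cases h1 : r.card = k
    · rw [if_pos h1]
    · rw [if_neg h1]
      by_contra h2
      exact h1 (hz r (Ne.symm h2)).2

/-- TRANSFER OF TRUNCATED ACYCLICITY: as `H30F.ac_transfer`. -/
theorem hc_transfer {A B : Type*} [Fintype A] [DecidableEq A] [Fintype B] [DecidableEq B]
    (K : Finset A → Prop) (L : Finset B → Prop) (hK : Dn K) (hL : Dn L)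
    (hK0 : K ∅) (hL0 : L ∅)
    (Φ : Finset A → Finset B → Prop) (Ψ : Finset B → Finset A → Prop)
    (Θ : Finset A → Finset A → Prop)
    (Φm : ∀ s t, s ⊆ t → K t → s.Nonempty → ∀ r, Φ s r → Φ t r)
    (Φ0 : ∀ s, K s → s.Nonempty → Φ s ∅) (Φac : ∀ s, K s → s.Nonempty → AC (Φ s))
    (ΦL : ∀ s, K s → s.Nonempty → ∀ r, Φ s r → L r)
    (Ψm : ∀ s t, s ⊆ t → L t → s.Nonempty → ∀ r, Ψ s r → Ψ t r)
    (Ψ0 : ∀ s, L s → s.Nonempty → Ψ s ∅) (Ψac : ∀ s, L s → s.Nonempty → AC (Ψ s))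
    (ΨK : ∀ s, L s → s.Nonempty → ∀ r, Ψ s r → K r)
    (Θm : ∀ s t, s ⊆ t → K t → s.Nonempty → ∀ r, Θ s r → Θ t r)
    (Θs : ∀ s, K s → s.Nonempty → Θ s s) (Θac : ∀ s, K s → s.Nonempty → AC (Θ s))
    (ΘK : ∀ s, K s → s.Nonempty → ∀ r, Θ s r → K r)
    (hc : ∀ s t r, K s → s.Nonempty → Φ s t → t.Nonempty → Ψ t r → Θ s r)
    {k : ℕ} (hAL : HC L k) : HC K k := by
  classical
  obtain ⟨θ, θ0, θ1, θ2⟩ := carriers K hK Φ Φm Φ0 Φac
  obtain ⟨ψ, ψ0, ψ1, ψ2⟩ := carriers L hL Ψ Ψm Ψ0 Ψac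
  have θ2' := carr_all θ0 θ2
  have ψ2' := carr_all ψ0 ψ2
  have θL : ∀ s, K s → ∀ r, θ s r ≠ 0 → L r := by
    intro s hs r hr
    rcases s.eq_empty_or_nonempty with h | h
    · rw [h, θ0] at hr
      by_cases h1 : r = ∅
      · rw [h1]
        exact hL0
      · rw [if_neg h1] at hr
        exact absurd rfl hr
    · exact ΦL s hs h r (θ1 s hs h r hr).1
  have ψK : ∀ s, L s → ∀ r, ψ s r ≠ 0 → K r := by
    intro s hs r hr
    rcases s.eq_empty_or_nonempty with h | h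
    · rw [h, ψ0] at hr
      by_cases h1 : r = ∅
      · rw [h1]
        exact hK0
      · rw [if_neg h1] at hr
        exact absurd rfl hr
    · exact ΨK s hs h r (ψ1 s hs h r hr).1
  obtain ⟨g, hg⟩ : ∃ g : Finset A → Finset A → ZMod 2, ∀ s r, g s r = psh ψ (θ s) r :=
    ⟨fun s r => psh ψ (θ s) r, fun _ _ => rfl⟩
  have g0 : ∀ r, g ∅ r = if r = ∅ then 1 else 0 := by
    intro r
    rw [hg]
    unfold psh
    rw [Finset.sum_eq_single ∅]
    · rw [θ0, if_pos rfl, one_mul, ψ0]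
    · intro T _ hT
      rw [θ0, if_neg hT, zero_mul]
    · intro h
      exact absurd (mem_univ _) h
  have g1 : ∀ s, K s → s.Nonempty → ∀ r, g s r ≠ 0 → Θ s r := by
    intro s hs hne r hr
    rw [hg] at hr
    unfold psh at hr
    obtain ⟨t, _, ht⟩ := Finset.exists_ne_zero_of_sum_ne_zero hr
    obtain ⟨h1, h2⟩ := θ1 s hs hne t (left_ne_zero_of_mul ht)
    have htn : t.Nonempty := Finset.card_pos.mp (by rw [h2]; exact Finset.card_pos.mpr hne)
    have h3 := (ψ1 t (ΦL s hs hne t h1) htn r (right_ne_zero_of_mul ht)).1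
    exact hc s t r hs hne h1 htn h3
  have g2 : ∀ s, K s → s.Nonempty → ∀ r, bd (g s) r = ∑ a ∈ s, g (s.erase a) r := by
    intro s hs hne r
    have e0 : g s = psh ψ (θ s) := by
      funext r
      exact hg s r
    rw [e0, psh_bd ψ ψ2' (θ s) (θL s hs) r]
    unfold psh
    have e1 : ∀ t : Finset B, bd (θ s) t * ψ t r = ∑ a ∈ s, θ (s.erase a) t * ψ t r := by
      intro t
      rw [θ2' s hs t, Finset.sum_mul]
    rw [Finset.sum_congr rfl fun t _ => e1 t, Finset.sum_comm]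
    refine Finset.sum_congr rfl fun a _ => ?_
    rw [hg]
    rfl
  obtain ⟨h, h0, h1, h2⟩ := htpy K hK Θ Θm Θs Θac g g0 g1 g2
  intro z hzk hbz
  have hz : ∀ s, z s ≠ 0 → K s := fun s hs => (hzk s hs).1
  -- the image in `L`
  have hzL : ∀ r, psh θ z r ≠ 0 → L r ∧ r.card = k := by
    intro r hr
    unfold psh at hr
    obtain ⟨s, _, hs⟩ := Finset.exists_ne_zero_of_sum_ne_zero hr
    have h3 := hzk s (left_ne_zero_of_mul hs)
    refine ⟨θL s h3.1 r (right_ne_zero_of_mul hs), ?_⟩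
    rcases s.eq_empty_or_nonempty with h | h
    · have hr' := right_ne_zero_of_mul hs
      rw [h, θ0] at hr'
      by_cases h4 : r = ∅
      · rw [h4, ← h3.2, h, Finset.card_empty, Finset.card_empty]
      · rw [if_neg h4] at hr'
        exact absurd rfl hr'
    · rw [(θ1 s h3.1 h r (right_ne_zero_of_mul hs)).2, h3.2]
  have hzb : ∀ r, bd (psh θ z) r = 0 := by
    intro r
    rw [psh_bd θ θ2' z hz r]
    unfold psh
    refine Finset.sum_eq_zero fun s _ => ?_
    rw [hbz, zero_mul]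
  obtain ⟨b, hbk, hb2⟩ := hAL _ hzL hzb
  have hb1 : ∀ s, b s ≠ 0 → L s := fun s hs => (hbk s hs).1
  refine trunc hzk (fun r => psh ψ b r + psh h z r) ?_ ?_
  · intro r hr
    by_cases e1 : psh ψ b r = 0
    · beta_reduce at hr
      rw [e1, zero_add] at hr
      unfold psh at hr
      obtain ⟨s, _, hs⟩ := Finset.exists_ne_zero_of_sum_ne_zero hr
      have hKs := hz s (left_ne_zero_of_mul hs)
      have hne : s.Nonempty := by
        rcases s.eq_empty_or_nonempty with h3 | h3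
        · rw [h3, h0, mul_zero] at hs
          exact absurd rfl hs
        · exact h3
      exact ΘK s hKs hne r (h1 s hKs hne r (right_ne_zero_of_mul hs))
    · unfold psh at e1
      obtain ⟨s, _, hs⟩ := Finset.exists_ne_zero_of_sum_ne_zero e1
      exact ψK s (hb1 s (left_ne_zero_of_mul hs)) r (right_ne_zero_of_mul hs)
  · intro r
    rw [bd_add, psh_bd ψ ψ2' b hb1 r, bd_psh]
    have e1 : psh ψ (bd b) r = psh ψ (psh θ z) r := by
      unfold psh
      refine Finset.sum_congr rfl fun s _ => ?_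
      rw [hb2]
      rfl
    have e2 : psh ψ (psh θ z) r = ∑ s, z s * g s r := by
      unfold psh
      have e3 : ∀ t : Finset B, (∑ s, z s * θ s t) * ψ t r = ∑ s, z s * (θ s t * ψ t r) := by
        intro t
        rw [Finset.sum_mul]
        exact Finset.sum_congr rfl fun s _ => by ring
      rw [Finset.sum_congr rfl fun t _ => e3 t, Finset.sum_comm]
      refine Finset.sum_congr rfl fun s _ => ?_
      rw [← Finset.mul_sum, hg]
      rfl
    have e4 : ∀ s : Finset A, z s * bd (h s) r =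
        z s * dl s r + z s * g s r + z s * ∑ a ∈ s, h (s.erase a) r := by
      intro s
      by_cases h0 : z s = 0
      · rw [h0]
        ring
      · rw [h2 s (hz s h0) r]
        ring
    rw [e1, e2, Finset.sum_congr rfl fun s _ => e4 s, Finset.sum_add_distrib,
      Finset.sum_add_distrib]
    have e5 : ∑ s : Finset A, z s * dl s r = z r := by
      rw [Finset.sum_eq_single r]
      · simp [dl]
      · intro b _ hb
        have : dl b r = 0 := if_neg fun h => hb h.symm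
        rw [this, mul_zero]
      · intro h
        exact absurd (mem_univ _) h
    have e6 : ∑ s : Finset A, z s * ∑ a ∈ s, h (s.erase a) r = 0 := by
      have h7 := pairing (fun s => h s r) z
      rw [← h7]
      refine Finset.sum_eq_zero fun s _ => ?_
      rw [hbz, mul_zero]
    rw [e5, e6, add_zero]
    have h8 := CharTwo.add_self_eq_zero (∑ s : Finset A, z s * g s r)
    linear_combination h8

/-- CLOSURE, truncated. -/
theorem hc_closure {α β : Type*} [PartialOrder α] [Fintype α] [DecidableEq α]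
    [PartialOrder β] [Fintype β] [DecidableEq β] {P : α → Prop} {Q : β → Prop}
    (f : α → β) (g : β → α) (hf : ∀ x, P x → Q (f x)) (hg : ∀ y, Q y → P (g y))
    (fm : ∀ x x', P x → P x' → x ≤ x' → f x ≤ f x')
    (gm : ∀ y y', Q y → Q y' → y ≤ y' → g y ≤ g y')
    (hfg : ∀ x, P x → x ≤ g (f x)) {k : ℕ} (hQ : HC (Ch Q) k) : HC (Ch P) k := by
  have hfi : ∀ s, Ch P s → Ch Q (s.image f) := by
    intro s hs
    refine ⟨fun y hy => ?_, fun y hy y' hy' => ?_⟩
    · obtain ⟨x, hx, rfl⟩ := mem_image.1 hy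
      exact hf x (hs.1 x hx)
    · obtain ⟨x, hx, rfl⟩ := mem_image.1 hy
      obtain ⟨x', hx', rfl⟩ := mem_image.1 hy'
      rcases hs.2 x hx x' hx' with h | h
      · exact Or.inl (fm x x' (hs.1 x hx) (hs.1 x' hx') h)
      · exact Or.inr (fm x' x (hs.1 x' hx') (hs.1 x hx) h)
  have hgi : ∀ s, Ch Q s → Ch P (s.image g) := by
    intro s hs
    refine ⟨fun y hy => ?_, fun y hy y' hy' => ?_⟩
    · obtain ⟨x, hx, rfl⟩ := mem_image.1 hy
      exact hg x (hs.1 x hx)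
    · obtain ⟨x, hx, rfl⟩ := mem_image.1 hy
      obtain ⟨x', hx', rfl⟩ := mem_image.1 hy'
      rcases hs.2 x hx x' hx' with h | h
      · exact Or.inl (gm x x' (hs.1 x hx) (hs.1 x' hx') h)
      · exact Or.inr (gm x' x (hs.1 x' hx') (hs.1 x hx) h)
  refine hc_transfer (Ch P) (Ch Q) ch_dn ch_dn (ch_empty P) (ch_empty Q)
    (fun s T => T ⊆ s.image f) (fun t U => U ⊆ t.image g)
    (fun s U => Ch P U ∧ ∃ m ∈ s, ∀ u ∈ U, m ≤ u)
    ?_ ?_ ?_ ?_ ?_ ?_ ?_ ?_ ?_ ?_ ?_ ?_ ?_ hQ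
  · exact fun s t hst _ _ r hr => hr.trans (image_subset_image hst)
  · exact fun s _ _ => empty_subset _
  · exact fun s _ hn => ac_simplex (hn.image f)
  · exact fun s hs _ r hr => ch_dn _ _ hr (hfi s hs)
  · exact fun s t hst _ _ r hr => hr.trans (image_subset_image hst)
  · exact fun s _ _ => empty_subset _
  · exact fun s _ hn => ac_simplex (hn.image g)
  · exact fun s hs _ r hr => ch_dn _ _ hr (hgi s hs)
  · rintro s t hst _ _ r ⟨h1, m, hm, h2⟩
    exact ⟨h1, m, hst hm, h2⟩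
  · intro s hs hn
    obtain ⟨m, hm, h⟩ := ch_min hs hn
    exact ⟨hs, m, hm, h⟩
  · intro s hs hn
    obtain ⟨m, hm, h⟩ := ch_min hs hn
    refine H96H.ac_cone ?_ m ?_
    · rintro U U' hU ⟨h1, m', hm', h2⟩
      exact ⟨ch_dn _ _ hU h1, m', hm', fun u hu => h2 u (hU hu)⟩
    · rintro U ⟨h1, m', hm', h2⟩
      refine ⟨ch_insert h1 (hs.1 m hm) fun x hx => Or.inl ((h m' hm').trans (h2 x hx)), m, hm, ?_⟩
      intro u hu
      rcases mem_insert.1 hu with h3 | h3
      · rw [h3]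
      · exact (h m' hm').trans (h2 u h3)
  · exact fun s _ _ r hr => hr.1
  · intro s t r hs hn h1 _ h3
    refine ⟨ch_dn _ _ (h3.trans (image_subset_image h1)) (hgi _ (hfi s hs)), ?_⟩
    obtain ⟨m, hm, h⟩ := ch_min hs hn
    refine ⟨m, hm, fun u hu => ?_⟩
    obtain ⟨y, hy, rfl⟩ := mem_image.1 (h3 hu)
    obtain ⟨x, hx, rfl⟩ := mem_image.1 (h1 hy)
    exact (h x hx).trans (hfg x (hs.1 x hx))

/-- SUBDIVISION, truncated. -/
theorem hc_sd {E : Type*} [Fintype E] [DecidableEq E] {K : Finset E → Prop} (hK : Dn K)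
    (hK0 : K ∅) {k : ℕ} (hA : HC K k) : HC (Ch fun G : Finset E => K G ∧ G.Nonempty) k := by
  refine hc_transfer (Ch fun G : Finset E => K G ∧ G.Nonempty) K ch_dn hK (ch_empty _) hK0
    (fun c G => ∃ M ∈ c, G ⊆ M) (fun G => Ch fun F : Finset E => F ⊆ G ∧ F.Nonempty)
    (fun c => Ch fun F : Finset E => (∃ M ∈ c, F ⊆ M) ∧ F.Nonempty)
    ?_ ?_ ?_ ?_ ?_ ?_ ?_ ?_ ?_ ?_ ?_ ?_ ?_ hA
  · rintro s t hst _ _ r ⟨M, hM, h⟩
    exact ⟨M, hst hM, h⟩
  · rintro s _ ⟨M, hM⟩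
    exact ⟨M, hM, empty_subset _⟩
  · intro s hs hn
    obtain ⟨M, hM, h⟩ := ch_max hs hn
    refine ac_congr (K := fun G => G ⊆ M) (fun G => ?_) (ac_simplex (hs.1 M hM).2)
    exact ⟨fun h1 => ⟨M, hM, h1⟩, fun ⟨M', hM', h1⟩ => h1.trans (h M' hM')⟩
  · rintro s hs _ r ⟨M, hM, h⟩
    exact hK _ _ h (hs.1 M hM).1
  · exact fun s t hst _ _ r hr => ch_mono (fun x hx => ⟨hx.1.trans hst, hx.2⟩) hr
  · exact fun s _ _ => ch_empty _
  · exact fun s _ hn => ac_ch_cone (a := s) ⟨Subset.rfl, hn⟩ fun x hx => Or.inr hx.1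
  · exact fun s hs _ r hr => ch_mono (fun x hx => ⟨hK _ _ hx.1 hs, hx.2⟩) hr
  · exact fun s t hst _ _ r hr =>
      ch_mono (fun x hx => ⟨⟨hx.1.choose, hst hx.1.choose_spec.1, hx.1.choose_spec.2⟩, hx.2⟩) hr
  · exact fun s hs _ => ⟨fun x hx => ⟨⟨x, hx, Subset.rfl⟩, (hs.1 x hx).2⟩, hs.2⟩
  · intro s hs hn
    obtain ⟨M, hM, h⟩ := ch_max hs hn
    refine ac_ch_cone (a := M) ⟨⟨M, hM, Subset.rfl⟩, (hs.1 M hM).2⟩ fun x hx => Or.inr ?_
    obtain ⟨⟨M', hM', h1⟩, -⟩ := hx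
    exact h1.trans (h M' hM')
  · intro s hs _ r hr
    refine ch_mono (fun x hx => ?_) hr
    obtain ⟨⟨M', hM', h1⟩, h2⟩ := hx
    exact ⟨hK _ _ h1 (hs.1 M' hM').1, h2⟩
  · rintro s t r hs hn ⟨M, hM, h⟩ _ h3
    exact ch_mono (fun x hx => ⟨⟨M, hM, hx.1.trans h⟩, hx.2⟩) h3


theorem hc_of_ack {A : Type*} [Fintype A] [DecidableEq A] {K : Finset A → Prop} {k : ℕ}
    (h : H70H.ACk k K) : HC K k := by
  intro z hz hb
  obtain ⟨c, hc1, hc2⟩ := h z (fun s hs => ⟨(hz s hs).1, (hz s hs).2.le⟩) hb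
  exact trunc hz c (fun s hs => (hc1 s hs).1) hc2

/-- The sets which are contained in a disconnected set, and the empty set. -/
def NN {V : Type*} [DecidableEq V] (G : Finset (Sym2 V)) (M : Finset V) : Prop :=
  M = ∅ ∨ ∃ W, M ⊆ W ∧ Disc W G

theorem nn_dn {V : Type*} [DecidableEq V] (G : Finset (Sym2 V)) : Dn (NN G) := by
  rintro M M' h (rfl | ⟨W, hW, hd⟩)
  · exact Or.inl (subset_empty.1 h)
  · exact Or.inr ⟨W, h.trans hW, hd⟩

/-- The poset of the disconnected sets has the truncated homology of the complex `NN G`. -/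
theorem hc_disc {V : Type*} [Fintype V] [DecidableEq V] {G : Finset (Sym2 V)} {k : ℕ}
    (h : HC (NN G) k) : HC (Ch fun W : Finset V => Disc W G) k := by
  have hne : ∀ W : Finset V, Disc W G → W.Nonempty := by
    rintro W ⟨C, D, ⟨c, hc⟩, -, -, rfl, -⟩
    exact ⟨c, mem_union_left _ hc⟩
  refine hc_transfer (Ch fun W : Finset V => Disc W G) (Ch fun M : Finset V => NN G M ∧ M.Nonempty)
    ch_dn ch_dn (ch_empty _) (ch_empty _)
    (fun c T => T ⊆ c) (fun t => Ch fun W : Finset V => Disc W G ∧ ∃ M ∈ t, M ⊆ W)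
    (fun c => Ch fun W : Finset V => Disc W G ∧ ∃ M ∈ c, M ⊆ W)
    ?_ ?_ ?_ ?_ ?_ ?_ ?_ ?_ ?_ ?_ ?_ ?_ ?_ (hc_sd (nn_dn G) (Or.inl rfl) h)
  · exact fun s t hst _ _ r hr => hr.trans hst
  · exact fun s _ _ => empty_subset _
  · exact fun s _ hn => ac_simplex hn
  · exact fun s hs _ r hr => ch_dn _ _ hr (ch_mono (fun W hW => ⟨Or.inr ⟨W, Subset.rfl, hW⟩, hne W hW⟩) hs)
  · exact fun s t hst _ _ r hr => ch_mono (fun W hW => ⟨hW.1, hW.2.choose, hst hW.2.choose_spec.1,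
      hW.2.choose_spec.2⟩) hr
  · exact fun s _ _ => ch_empty _
  · intro t ht hn
    obtain ⟨m, hm, hmin⟩ := ch_min ht hn
    obtain ⟨h1, h2⟩ := ht.1 m hm
    rcases h1 with h1 | ⟨W, hW, hd⟩
    · rw [h1] at h2
      exact absurd h2 (by simp)
    · refine ac_congr (fun c => ?_) (H30D.ac_above (G := G) h2 ⟨W, hW, hd⟩)
      have e : (fun W : Finset V => Disc W G ∧ m ⊆ W) = fun W => Disc W G ∧ ∃ M ∈ t, M ⊆ W := by
        funext W
        refine propext ⟨fun h3 => ⟨h3.1, m, hm, h3.2⟩, fun ⟨h3, M, hM, h4⟩ => ⟨h3, (hmin M hM).trans h4⟩⟩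
      rw [← e]
  · exact fun s _ _ r hr => ch_mono (fun W hW => hW.1) hr
  · exact fun s t hst _ _ r hr => ch_mono (fun W hW => ⟨hW.1, hW.2.choose, hst hW.2.choose_spec.1,
      hW.2.choose_spec.2⟩) hr
  · exact fun s hs _ => ⟨fun W hW => ⟨hs.1 W hW, W, hW, Subset.rfl⟩, hs.2⟩
  · intro s hs hn
    obtain ⟨m, hm, hmin⟩ := ch_min hs hn
    refine ac_ch_cone (a := m) ⟨hs.1 m hm, m, hm, Subset.rfl⟩ fun W hW => Or.inl ?_
    obtain ⟨-, M, hM, h4⟩ := hW
    exact (hmin M hM).trans h4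
  · exact fun s _ _ r hr => ch_mono (fun W hW => hW.1) hr
  · intro s t r hs hn h1 _ h3
    exact ch_mono (fun W hW => ⟨hW.1, hW.2.choose, h1 hW.2.choose_spec.1, hW.2.choose_spec.2⟩) h3

end H63T
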