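import Pool.Agent.Lib.H63T.HC
import Pool.Agent.Lib.H30F.BP

/-!
# H63T, file Tr: the truncated functor theorem

As `H30F.functor`, with a bound for the number of edges: `X` a decreasing family of families of vertex sets on which the
plane set `G` is disconnected. Then some plane `G` with at least `2n - 3` edges contains a nonempty `S` for which the
order complex of `X S` is not acyclic.
-/

set_option autoImplicit false

set_option linter.unusedSectionVars false

namespace H63T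

open Finset H98P H98Z H63F H30F H98M H56V

theorem hc_congr {B : Type*} [Fintype B] [DecidableEq B] {K K' : Finset B → Prop} (h : ∀ s, K s ↔ K' s) {k : ℕ}
    (hK : HC K k) : HC K' k := by
  have e : K = K' := funext fun s => propext (h s)
  rwa [← e]

/-- The length of a chain of finite sets. -/
theorem chain_card {α : Type*} [DecidableEq α] {P : Finset α → Prop} {c : Finset (Finset α)} (hc : Ch P c)
    {m M : Finset α} (hm : ∀ x ∈ c, m ⊆ x) (hM : ∀ x ∈ c, x ⊆ M) (hmM : m ⊆ M) : c.card + m.card ≤ M.card + 1 := by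
  have h1 : c.card ≤ (Icc m.card M.card).card := by
    refine card_le_card_of_injOn card (fun x hx => ?_) (fun x hx y hy hxy => ?_)
    · exact mem_coe.2 (mem_Icc.2 ⟨card_le_card (hm x hx), card_le_card (hM x hx)⟩)
    · rcases hc.2 x hx y hy with h | h
      · exact eq_of_subset_of_card_le h hxy.ge
      · exact (eq_of_subset_of_card_le h hxy.le).symm
  rw [Nat.card_Icc] at h1
  have := card_le_card hmM
  omega

variable {V : Type*} [Fintype V] [DecidableEq V]

private theorem tr_mono {W : Finset V} {F F' : Finset (Sym2 V)} (hF : F ⊆ F') (h : Disc W F') : Disc W F := by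
  obtain ⟨C, D, hC, hD, hCD, hW, h⟩ := h
  exact ⟨C, D, hC, hD, hCD, hW, fun x hx y hy h1 => h x hx y hy (hF h1)⟩

/-- THE TRUNCATED FUNCTOR THEOREM. -/
theorem functor_exact {cross : Sym2 V → Sym2 V → Prop} (hsymm : ∀ e f, cross e f → cross f e)
    (hHD : ∀ W, HD cross W) (hV : ∃ x y : V, x ≠ y)
    (hD : ∀ S : Finset (Sym2 V), S ⊆ LW univ → S.Nonempty → ∀ k, k + S.card + 4 ≤ 2 * Fintype.card V →
      HC (Ch fun W : Finset V => Disc W S) k)
    (X : Finset (Sym2 V) → Finset V → Prop)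
    (hXm : ∀ G G', G ⊆ G' → G' ⊆ LW univ → Plane cross G' → G.Nonempty → ∀ W, X G' W → X G W)
    (hXd : ∀ G W, G ⊆ LW univ → Plane cross G → G.Nonempty → X G W → Disc W G) :
    ∃ S G : Finset (Sym2 V), S.Nonempty ∧ S ⊆ G ∧ G ⊆ LW univ ∧ Plane cross G ∧
      2 * Fintype.card V ≤ G.card + 3 ∧ ¬ AC (Ch (X S)) := by
  classical
  by_contra hcon
  push Not at hcon
  obtain ⟨x, y, hxy⟩ := hV
  have hK : Acy cross (LW (univ : Finset V)) := by
    refine acy_hasCut hsymm (hHD univ) (W := univ) ⟨Subset.rfl, {x}, univ \ {x}, singleton_nonempty x,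
      ⟨y, by simp [Ne.symm hxy]⟩, disjoint_sdiff, by simp, ?_⟩
    intro a ha b hb
    refine mem_LW (mem_univ _) (mem_univ _) fun e => ?_
    subst e
    exact (mem_sdiff.1 hb).2 ha
  obtain ⟨Win, hWin⟩ : ∃ Win : Finset (Sym2 V) → Prop, ∀ G, Win G ↔ ∃ S, S ⊆ G ∧ S.Nonempty ∧ ¬ AC (Ch (X S)) :=
    ⟨_, fun _ => Iff.rfl⟩
  obtain ⟨P, hP⟩ : ∃ P : Finset (Sym2 V) → Finset (Sym2 V) → Finset V × Finset (Sym2 V) → Prop, ∀ S G p, P S G p ↔
      (HasCut p.1 p.2 ∧ Disc p.1 S ∧ Disjoint p.2 S) ∧ (Win G ∨ X S p.1) := ⟨_, fun _ _ _ => Iff.rfl⟩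
  obtain ⟨K, hKdef⟩ : ∃ K : Finset (Sym2 V) → Prop, ∀ G, K G ↔ (G ⊆ LW univ ∧ Plane cross G) :=
    ⟨_, fun _ => Iff.rfl⟩
  have hKd : Dn K := fun s t hst h => by
    rw [hKdef] at h ⊢
    exact ⟨hst.trans h.1, plane_sub hst h.2⟩
  have hK0 : K ∅ := (hKdef ∅).2 ⟨empty_subset _, fun e he => absurd he (notMem_empty e)⟩
  have hAK : AC K := ac_congr (fun s => (hKdef s).symm) hK
  have hWinUp : ∀ G G', G ⊆ G' → Win G → Win G' := by
    intro G G' h h1
    rw [hWin] at h1 ⊢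
    obtain ⟨S, h2, h3⟩ := h1
    exact ⟨S, h2.trans h, h3⟩
  have hPm : ∀ S S' G G', S ⊆ S' → K S' → S.Nonempty → G' ⊆ G → ∀ p, P S' G' p → P S G p := by
    intro S S' G G' h hS' hS h' p hp
    rw [hP] at hp ⊢
    rw [hKdef] at hS'
    refine ⟨⟨hp.1.1, ?_, hp.1.2.2.mono_right h⟩, hp.2.imp (hWinUp _ _ h') fun h1 => hXm _ _ h hS'.1 hS'.2 hS _ h1⟩
    exact tr_mono h hp.1.2.1
  have hgd : ∀ {W : Finset V} {S : Finset (Sym2 V)}, Disc W S → HasCut W (LW W \ S) ∧ Disc W S ∧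
      Disjoint (LW W \ S) S := fun h => ⟨hasCut_compl h, h, sdiff_disjoint⟩
  have hLW : ∀ {W W' : Finset V}, W ≤ W' → ∀ {S : Finset (Sym2 V)}, LW W \ S ⊆ LW W' \ S := by
    intro W W' h S
    refine sdiff_subset_sdiff (fun e he => ?_) Subset.rfl
    unfold LW at he ⊢
    rw [mem_filter] at he ⊢
    exact ⟨Finset.sym2_mono h he.1, he.2⟩
  obtain ⟨c, T, hcn, hcK, hTn, ⟨S, hSc, G, hGc, hSG, hTP⟩, hXi⟩ := trace_pair (E := Finset (Sym2 V))
    (C := Finset V × Finset (Sym2 V))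
    (Ch fun G : Finset (Sym2 V) => K G ∧ G.Nonempty)
    (Ch fun p : Finset V × Finset (Sym2 V) => HasCut p.1 p.2)
    ch_dn ch_dn (ch_empty _) (ac_sd hKd hK0 hAK)
    (fun c T => ∃ S ∈ c, ∃ G ∈ c, S ⊆ G ∧ Ch (P S G) T)
    (fun T => Ch fun F : Finset (Sym2 V) => (∃ p ∈ T, F ⊆ p.2 ∧ Plane cross F) ∧ F.Nonempty)
    (fun c T _ _ ⟨S, _, G, _, _, h⟩ => ch_mono (fun p hp => ((hP S G p).1 hp).1.1) h)
    (fun c c' hcc _ _ T ⟨S, hS, G, hG, h⟩ => ⟨S, hcc hS, G, hcc hG, h⟩)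
    (fun c _ ⟨S, hS⟩ => ⟨S, hS, S, hS, Subset.rfl, ch_empty _⟩)
    (fun c hc hn => by
      obtain ⟨m, hm, hmin⟩ := ch_min hc hn
      obtain ⟨M, hM, hmax⟩ := ch_max hc hn
      have hmM : m ⊆ M := hmin M hM
      have hKm := (hKdef m).1 (hc.1 m hm).1
      have hKM := (hKdef M).1 (hc.1 M hM).1
      refine hc_congr (K := Ch (P m M)) (fun T => ?_) ?_
      · constructor
        · exact fun h1 => ⟨m, hm, M, hM, hmM, h1⟩
        · rintro ⟨S, hS, G, hG, hSG, h1⟩
          exact ch_mono (hPm m S M G (hmin S hS) (hc.1 S hS).1 (hc.1 m hm).2 (hmax G hG)) h1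
      · by_cases hw : Win M
        · have hM4 : M.card + 4 ≤ 2 * Fintype.card V := by
            obtain ⟨S, h1, h2, h3⟩ := (hWin M).1 hw
            by_contra h4
            exact h3 (hcon S M h2 h1 hKM.1 hKM.2 (by omega))
          have hcc := chain_card hc hmin hmax hmM
          have hcp := card_pos.2 hn
          refine hc_closure (fun p : Finset V × Finset (Sym2 V) => p.1) (fun W : Finset V => (W, LW W \ m))
            (Q := fun W => Disc W m) ?_ ?_ ?_ ?_ ?_ (hD m hKm.1 (hc.1 m hm).2 _ (by omega))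
          · exact fun p hp => ((hP m M p).1 hp).1.2.1
          · exact fun W hW => (hP m M _).2 ⟨hgd hW, Or.inl hw⟩
          · exact fun p p' _ _ h => h.1
          · exact fun W W' _ _ h => ⟨h, hLW h⟩
          · intro p hp
            have h1 := ((hP m M p).1 hp).1
            exact ⟨le_refl _, fun e he => mem_sdiff.2 ⟨h1.1.1 he, disjoint_left.1 h1.2.2 he⟩⟩
        · have hAC : AC (Ch (X m)) := by
            by_contra h1
            exact hw ((hWin M).2 ⟨m, hmM, (hc.1 m hm).2, h1⟩)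
          refine hc_closure (fun p : Finset V × Finset (Sym2 V) => p.1) (fun W : Finset V => (W, LW W \ m))
            (Q := X m) ?_ ?_ ?_ ?_ ?_ (hc_of_ac hAC _)
          · exact fun p hp => ((hP m M p).1 hp).2.resolve_left hw
          · exact fun W hW => (hP m M _).2 ⟨hgd (hXd m W hKm.1 hKm.2 (hc.1 m hm).2 hW), Or.inr hW⟩
          · exact fun p p' _ _ h => h.1
          · exact fun W W' _ _ h => ⟨h, hLW h⟩
          · intro p hp
            have h1 := ((hP m M p).1 hp).1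
            exact ⟨le_refl _, fun e he => mem_sdiff.2 ⟨h1.1.1 he, disjoint_left.1 h1.2.2 he⟩⟩)
    (fun T c hT _ hc => ch_mono (fun F hF => by
      obtain ⟨⟨p, hp, h1, h2⟩, h3⟩ := hF
      refine ⟨(hKdef F).2 ⟨h1.trans ((hT.1 p hp).1.trans fun e he => ?_), h2⟩, h3⟩
      unfold LW at he ⊢
      rw [mem_filter] at he ⊢
      exact ⟨Finset.sym2_mono (subset_univ _) he.1, he.2⟩) hc)
    (fun T T' hTT _ _ c hc => ch_mono (fun F hF => by
      obtain ⟨⟨p, hp, h1⟩, h3⟩ := hF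
      exact ⟨⟨p, hTT hp, h1⟩, h3⟩) hc)
    (fun T _ _ => ch_empty _)
    (fun T hT hn => by
      obtain ⟨m, hm, h⟩ := ch_max hT hn
      refine ac_sd (K := fun F => ∃ p ∈ T, F ⊆ p.2 ∧ Plane cross F) ?_ ?_ ?_
      · exact fun s t hst ⟨p, hp, h1, h2⟩ => ⟨p, hp, hst.trans h1, plane_sub hst h2⟩
      · exact ⟨m, hm, empty_subset _, fun e he => absurd he (notMem_empty e)⟩
      · refine ac_congr (K := fun s => s ⊆ m.2 ∧ Plane cross s) (fun s => ?_)
          (acy_hasCut hsymm (hHD m.1) (hT.1 m hm))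
        exact ⟨fun h1 => ⟨m, hm, h1⟩, fun ⟨p, hp, h1, h2⟩ => ⟨h1.trans (h p hp).2, h2⟩⟩)
  obtain ⟨⟨p, hp, h1, -⟩, ⟨e, he⟩⟩ := hXi.1 S hSc
  have h2 := ((hP S G p).1 (hTP.1 p hp)).1.2.2
  exact disjoint_left.1 h2 (h1 he) he

end H63T
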